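import Pool.Agent.Lib.MP_ff3579_an.X.Iface

/-! Module BAD: a general bound for the bad part. -/

set_option autoImplicit false

namespace Pool.Agent.Lib.MP_ff3579_an.X.H98

open Pool.Agent.Lib.MP_ff3579_an.X

theorem bad : BadStatement := by
  intro N k P hk hN hP
  set Q := 4 * k * (1 + Nat.log (8 * k - 2) (2 * N)) with hQ
  set Y := 2 * k * (2 + Nat.log P (2 * N)) with hY
  have hQ1 : 1 ≤ Q := by
    rw [hQ]
    exact Nat.one_le_iff_ne_zero.mpr (by positivity)
  have hmem : ∀ p ∈ badSet N k, p.Prime ∧ 8 * k ≤ p + 2 ∧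
      p < 2 * k * (2 + Nat.log p (2 * N)) := by
    intro p hp
    unfold badSet at hp
    exact (Finset.mem_filter.mp hp).2
  have hlt : ∀ p ∈ badSet N k, p < max P Y := by
    intro p hp
    obtain ⟨hp1, hp2, hp3⟩ := hmem p hp
    by_cases h : p < P
    · exact lt_max_of_lt_left h
    · push Not at h
      apply lt_max_of_lt_right
      refine lt_of_lt_of_le hp3 ?_
      rw [hY]
      have : Nat.log p (2 * N) ≤ Nat.log P (2 * N) := Nat.log_anti_left (by omega) h
      exact Nat.mul_le_mul_left _ (by omega)
  have hlog : ∀ p ∈ badSet N k, 4 * k * (1 + Nat.log p (2 * N)) ≤ Q := by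
    intro p hp
    obtain ⟨hp1, hp2, hp3⟩ := hmem p hp
    have : Nat.log p (2 * N) ≤ Nat.log (8 * k - 2) (2 * N) :=
      Nat.log_anti_left (by omega) (by omega)
    rw [hQ]
    exact Nat.mul_le_mul_left _ (by omega)
  have hfac : ∀ p ∈ badSet N k, fac N k p ≤ p * (if p ≤ Nat.sqrt Q then Q else 1) := by
    intro p hp
    obtain ⟨hp1, hp2, hp3⟩ := hmem p hp
    have hQp := hlog p hp
    have hp0 : 1 ≤ p := hp1.one_lt.le
    unfold fac
    split_ifs with h1 h2 h2
    · calc 4 * k * (1 + Nat.log p (2 * N)) ≤ Q := hQp
        _ ≤ p * Q := Nat.le_mul_of_pos_left _ hp0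
    · exfalso
      apply h2
      rw [Nat.le_sqrt']
      exact le_trans h1 hQp
    · exact Nat.le_mul_of_pos_right _ hQ1
    · simp
  calc ∏ p ∈ badSet N k, fac N k p
      ≤ ∏ p ∈ badSet N k, (p * (if p ≤ Nat.sqrt Q then Q else 1)) :=
        Finset.prod_le_prod' hfac
    _ = (∏ p ∈ badSet N k, p) * ∏ p ∈ badSet N k, (if p ≤ Nat.sqrt Q then Q else 1) :=
        Finset.prod_mul_distrib
    _ ≤ 4 ^ max P Y * Q ^ Nat.sqrt Q := by
        apply Nat.mul_le_mul
        · calc ∏ p ∈ badSet N k, p ≤ primorial (max P Y) := by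
                unfold primorial
                apply Finset.prod_le_prod_of_subset_of_one_le'
                · intro p hp
                  rw [Finset.mem_filter, Finset.mem_range]
                  exact ⟨by have := hlt p hp; omega, (hmem p hp).1⟩
                · intro p hp _
                  exact (Finset.mem_filter.mp hp).2.one_lt.le
            _ ≤ 4 ^ max P Y := primorial_le_four_pow _
        · rw [Finset.prod_ite, Finset.prod_const, Finset.prod_const_one, mul_one]
          apply Nat.pow_le_pow_right hQ1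
          calc ((badSet N k).filter (fun p => p ≤ Nat.sqrt Q)).card
              ≤ (Finset.Icc 1 (Nat.sqrt Q)).card := by
                apply Finset.card_le_card
                intro p hp
                rw [Finset.mem_filter] at hp
                rw [Finset.mem_Icc]
                exact ⟨(hmem p hp.1).1.one_lt.le, hp.2⟩
            _ = Nat.sqrt Q := by simp

end Pool.Agent.Lib.MP_ff3579_an.X.H98
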