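import Pool.Agent.Lib.MP_ff3579_an.X.Iface

/-! Module BOX: `Win N k` for `k < 30`, by boxes and one exact integer computation in the kernel. -/

set_option autoImplicit false

namespace Pool.Agent.Lib.MP_ff3579_an.X.H98

open Pool.Agent.Lib.MP_ff3579_an.X

/-- the primes below `6000` -/
def PL : List ℕ := [2, 3, 5, 7, 11, 13, 17, 19, 23, 29, 31, 37, 41, 43, 47, 53, 59, 61, 67, 71, 73, 79, 83, 89, 97,
   101, 103, 107, 109, 113, 127, 131, 137, 139, 149, 151, 157, 163, 167, 173, 179, 181, 191, 193,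
   197, 199, 211, 223, 227, 229, 233, 239, 241, 251, 257, 263, 269, 271, 277, 281, 283, 293, 307,
   311, 313, 317, 331, 337, 347, 349, 353, 359, 367, 373, 379, 383, 389, 397, 401, 409, 419, 421,
   431, 433, 439, 443, 449, 457, 461, 463, 467, 479, 487, 491, 499, 503, 509, 521, 523, 541, 547,
   557, 563, 569, 571, 577, 587, 593, 599, 601, 607, 613, 617, 619, 631, 641, 643, 647, 653, 659,
   661, 673, 677, 683, 691, 701, 709, 719, 727, 733, 739, 743, 751, 757, 761, 769, 773, 787, 797,
   809, 811, 821, 823, 827, 829, 839, 853, 857, 859, 863, 877, 881, 883, 887, 907, 911, 919, 929,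
   937, 941, 947, 953, 967, 971, 977, 983, 991, 997, 1009, 1013, 1019, 1021, 1031, 1033, 1039,
   1049, 1051, 1061, 1063, 1069, 1087, 1091, 1093, 1097, 1103, 1109, 1117, 1123, 1129, 1151, 1153,
   1163, 1171, 1181, 1187, 1193, 1201, 1213, 1217, 1223, 1229, 1231, 1237, 1249, 1259, 1277, 1279,
   1283, 1289, 1291, 1297, 1301, 1303, 1307, 1319, 1321, 1327, 1361, 1367, 1373, 1381, 1399, 1409,
   1423, 1427, 1429, 1433, 1439, 1447, 1451, 1453, 1459, 1471, 1481, 1483, 1487, 1489, 1493, 1499,
   1511, 1523, 1531, 1543, 1549, 1553, 1559, 1567, 1571, 1579, 1583, 1597, 1601, 1607, 1609, 1613,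
   1619, 1621, 1627, 1637, 1657, 1663, 1667, 1669, 1693, 1697, 1699, 1709, 1721, 1723, 1733, 1741,
   1747, 1753, 1759, 1777, 1783, 1787, 1789, 1801, 1811, 1823, 1831, 1847, 1861, 1867, 1871, 1873,
   1877, 1879, 1889, 1901, 1907, 1913, 1931, 1933, 1949, 1951, 1973, 1979, 1987, 1993, 1997, 1999,
   2003, 2011, 2017, 2027, 2029, 2039, 2053, 2063, 2069, 2081, 2083, 2087, 2089, 2099, 2111, 2113,
   2129, 2131, 2137, 2141, 2143, 2153, 2161, 2179, 2203, 2207, 2213, 2221, 2237, 2239, 2243, 2251,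
   2267, 2269, 2273, 2281, 2287, 2293, 2297, 2309, 2311, 2333, 2339, 2341, 2347, 2351, 2357, 2371,
   2377, 2381, 2383, 2389, 2393, 2399, 2411, 2417, 2423, 2437, 2441, 2447, 2459, 2467, 2473, 2477,
   2503, 2521, 2531, 2539, 2543, 2549, 2551, 2557, 2579, 2591, 2593, 2609, 2617, 2621, 2633, 2647,
   2657, 2659, 2663, 2671, 2677, 2683, 2687, 2689, 2693, 2699, 2707, 2711, 2713, 2719, 2729, 2731,
   2741, 2749, 2753, 2767, 2777, 2789, 2791, 2797, 2801, 2803, 2819, 2833, 2837, 2843, 2851, 2857,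
   2861, 2879, 2887, 2897, 2903, 2909, 2917, 2927, 2939, 2953, 2957, 2963, 2969, 2971, 2999, 3001,
   3011, 3019, 3023, 3037, 3041, 3049, 3061, 3067, 3079, 3083, 3089, 3109, 3119, 3121, 3137, 3163,
   3167, 3169, 3181, 3187, 3191, 3203, 3209, 3217, 3221, 3229, 3251, 3253, 3257, 3259, 3271, 3299,
   3301, 3307, 3313, 3319, 3323, 3329, 3331, 3343, 3347, 3359, 3361, 3371, 3373, 3389, 3391, 3407,
   3413, 3433, 3449, 3457, 3461, 3463, 3467, 3469, 3491, 3499, 3511, 3517, 3527, 3529, 3533, 3539,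
   3541, 3547, 3557, 3559, 3571, 3581, 3583, 3593, 3607, 3613, 3617, 3623, 3631, 3637, 3643, 3659,
   3671, 3673, 3677, 3691, 3697, 3701, 3709, 3719, 3727, 3733, 3739, 3761, 3767, 3769, 3779, 3793,
   3797, 3803, 3821, 3823, 3833, 3847, 3851, 3853, 3863, 3877, 3881, 3889, 3907, 3911, 3917, 3919,
   3923, 3929, 3931, 3943, 3947, 3967, 3989, 4001, 4003, 4007, 4013, 4019, 4021, 4027, 4049, 4051,
   4057, 4073, 4079, 4091, 4093, 4099, 4111, 4127, 4129, 4133, 4139, 4153, 4157, 4159, 4177, 4201,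
   4211, 4217, 4219, 4229, 4231, 4241, 4243, 4253, 4259, 4261, 4271, 4273, 4283, 4289, 4297, 4327,
   4337, 4339, 4349, 4357, 4363, 4373, 4391, 4397, 4409, 4421, 4423, 4441, 4447, 4451, 4457, 4463,
   4481, 4483, 4493, 4507, 4513, 4517, 4519, 4523, 4547, 4549, 4561, 4567, 4583, 4591, 4597, 4603,
   4621, 4637, 4639, 4643, 4649, 4651, 4657, 4663, 4673, 4679, 4691, 4703, 4721, 4723, 4729, 4733,
   4751, 4759, 4783, 4787, 4789, 4793, 4799, 4801, 4813, 4817, 4831, 4861, 4871, 4877, 4889, 4903,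
   4909, 4919, 4931, 4933, 4937, 4943, 4951, 4957, 4967, 4969, 4973, 4987, 4993, 4999, 5003, 5009,
   5011, 5021, 5023, 5039, 5051, 5059, 5077, 5081, 5087, 5099, 5101, 5107, 5113, 5119, 5147, 5153,
   5167, 5171, 5179, 5189, 5197, 5209, 5227, 5231, 5233, 5237, 5261, 5273, 5279, 5281, 5297, 5303,
   5309, 5323, 5333, 5347, 5351, 5381, 5387, 5393, 5399, 5407, 5413, 5417, 5419, 5431, 5437, 5441,
   5443, 5449, 5471, 5477, 5479, 5483, 5501, 5503, 5507, 5519, 5521, 5527, 5531, 5557, 5563, 5569,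
   5573, 5581, 5591, 5623, 5639, 5641, 5647, 5651, 5653, 5657, 5659, 5669, 5683, 5689, 5693, 5701,
   5711, 5717, 5737, 5741, 5743, 5749, 5779, 5783, 5791, 5801, 5807, 5813, 5821, 5827, 5839, 5843,
   5849, 5851, 5857, 5861, 5867, 5869, 5879, 5881, 5897, 5903, 5923, 5927, 5939, 5953, 5981, 5987]

/-- the primes below `79` -/
def SL : List ℕ := [2, 3, 5, 7, 11, 13, 17, 19, 23, 29, 31, 37, 41, 43, 47, 53, 59, 61, 67, 71, 73]

/-- linear check that every number of an interval which is coprime to `M` is in the list -/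
def walk (M : ℕ) : ℕ → ℕ → List ℕ → Bool
  | 0, _, _ => true
  | f + 1, x, [] => !(Nat.beq (Nat.gcd x M) 1) && walk M f (x + 1) []
  | f + 1, x, a :: l => bif Nat.beq x a then walk M f (x + 1) l
      else !(Nat.beq (Nat.gcd x M) 1) && walk M f (x + 1) (a :: l)

theorem walk_mem (M : ℕ) : ∀ (f x : ℕ) (l : List ℕ), walk M f x l = true →
    ∀ y, x ≤ y → y < x + f → Nat.gcd y M = 1 → y ∈ l := by
  intro f
  induction f with
  | zero => intro x l _ y h1 h2 _; omega
  | succ f ih =>
    intro x l hw y h1 h2 h3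
    cases l with
    | nil =>
      simp only [walk, Bool.and_eq_true, Bool.not_eq_true'] at hw
      rcases Nat.eq_or_lt_of_le h1 with h | h
      · subst h
        exfalso
        have := Nat.ne_of_beq_eq_false hw.1
        exact this h3
      · exact ih (x + 1) [] hw.2 y h (by omega) h3
    | cons a l =>
      simp only [walk] at hw
      cases hxa : Nat.beq x a with
      | true =>
        rw [hxa] at hw
        simp only [cond_true] at hw
        have hxa' := Nat.eq_of_beq_eq_true hxa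
        rcases Nat.eq_or_lt_of_le h1 with h | h
        · subst h
          rw [hxa']
          exact List.mem_cons_self
        · exact List.mem_cons_of_mem _ (ih (x + 1) l hw y h (by omega) h3)
      | false =>
        rw [hxa] at hw
        simp only [cond_false, Bool.and_eq_true, Bool.not_eq_true'] at hw
        rcases Nat.eq_or_lt_of_le h1 with h | h
        · subst h
          exfalso
          have := Nat.ne_of_beq_eq_false hw.1
          exact this h3
        · exact ih (x + 1) (a :: l) hw.2 y h (by omega) h3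

theorem walk_PL : walk SL.prod 5998 2 PL = true := by decide +kernel

theorem small_PL : ∀ x < 79, x ∈ PL ∨ x ≤ 1 ∨ (2 ∣ x ∧ x ≠ 2) ∨ (3 ∣ x ∧ x ≠ 3) ∨
    (5 ∣ x ∧ x ≠ 5) ∨ (7 ∣ x ∧ x ≠ 7) := by decide +kernel

theorem SL_lt : ∀ q ∈ SL, 1 ≤ q ∧ q < 79 := by decide +kernel

theorem mem_PL {p : ℕ} (hp : p.Prime) (h : p < 6000) : p ∈ PL := by
  rcases lt_or_ge p 79 with h1 | h1
  · rcases small_PL p h1 with h2 | h2 | h2 | h2 | h2 | h2
    · exact h2
    · exact absurd hp.one_lt (by omega)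
    · exact absurd ((Nat.prime_dvd_prime_iff_eq Nat.prime_two hp).mp h2.1).symm h2.2
    · exact absurd ((Nat.prime_dvd_prime_iff_eq Nat.prime_three hp).mp h2.1).symm h2.2
    · exact absurd ((Nat.prime_dvd_prime_iff_eq Nat.prime_five hp).mp h2.1).symm h2.2
    · exact absurd ((Nat.prime_dvd_prime_iff_eq (by norm_num) hp).mp h2.1).symm h2.2
  · apply walk_mem SL.prod 5998 2 PL walk_PL p (by omega) (by omega)
    rcases Nat.coprime_or_dvd_of_prime hp SL.prod with h2 | h2
    · exact h2
    · exfalso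
      obtain ⟨q, hq, hpq⟩ := (Prime.dvd_prod_iff hp.prime).mp h2
      obtain ⟨h3, h4⟩ := SL_lt q hq
      have := Nat.le_of_dvd (by omega) hpq
      omega

/-- the bad product, computed from a list of primes -/
def dprod (k H Q : ℕ) : List ℕ → ℕ
  | [] => 1
  | p :: l => bif Nat.ble (8 * k) (p + 2) && Nat.ble (Nat.pow p (p / (2 * k) - 1)) H then
      (bif Nat.ble (p * p) Q then Q else p) * dprod k H Q l else dprod k H Q l

/-- number of the members `< 8 k - 2` of a list -/
def pc (k : ℕ) : List ℕ → ℕ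
  | [] => 0
  | p :: l => bif Nat.ble (8 * k) (p + 2) then pc k l else pc k l + 1

theorem dprod_pos (k H Q : ℕ) (hQ : 1 ≤ Q) : ∀ L : List ℕ, (∀ p ∈ L, 1 ≤ p) →
    1 ≤ dprod k H Q L := by
  intro L
  induction L with
  | nil => intro _; exact le_refl _
  | cons p l ih =>
    intro hL
    have h1 := ih (fun q hq => hL q (List.mem_cons_of_mem _ hq))
    have hp := hL p List.mem_cons_self
    simp only [dprod]
    cases (Nat.ble (8 * k) (p + 2) && Nat.ble (Nat.pow p (p / (2 * k) - 1)) H)
    · simpa using h1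
    · simp only [cond_true]
      apply Nat.mul_pos _ h1
      cases Nat.ble (p * p) Q
      · exact hp
      · exact hQ

theorem prod_le_dprod (k H Q : ℕ) (hQ : 1 ≤ Q) (f : ℕ → ℕ) :
    ∀ (L : List ℕ) (B : Finset ℕ), (∀ p ∈ L, 1 ≤ p) → (∀ p ∈ B, p ∈ L) →
      (∀ p ∈ B, 8 * k ≤ p + 2 ∧ p ^ (p / (2 * k) - 1) ≤ H ∧
        f p ≤ (bif Nat.ble (p * p) Q then Q else p)) →
      ∏ p ∈ B, f p ≤ dprod k H Q L := by
  intro L
  induction L with
  | nil =>
    intro B _ hB _
    have : B = ∅ := Finset.eq_empty_of_forall_notMem (fun p hp => by simpa using hB p hp)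
    subst this
    simp [dprod]
  | cons a l ih =>
    intro B hL hB hf
    have hL' : ∀ p ∈ l, 1 ≤ p := fun q hq => hL q (List.mem_cons_of_mem _ hq)
    by_cases ha : a ∈ B
    · obtain ⟨h1, h2, h3⟩ := hf a ha
      have e1 : Nat.ble (8 * k) (a + 2) = true := Nat.ble_eq_true_of_le h1
      have e2 : Nat.ble (Nat.pow a (a / (2 * k) - 1)) H = true := Nat.ble_eq_true_of_le h2
      have := ih (B.erase a) hL' (fun p hp => by
        have := hB p (Finset.mem_of_mem_erase hp)
        rcases List.mem_cons.mp this with h | h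
        · exact absurd h (Finset.ne_of_mem_erase hp)
        · exact h) (fun p hp => hf p (Finset.mem_of_mem_erase hp))
      rw [← Finset.mul_prod_erase B f ha]
      simp only [dprod, e1, e2, Bool.and_self, cond_true]
      exact Nat.mul_le_mul h3 this
    · have := ih B hL' (fun p hp => by
        rcases List.mem_cons.mp (hB p hp) with h | h
        · exact absurd (h ▸ hp) ha
        · exact h) hf
      refine le_trans this ?_
      simp only [dprod]
      cases (Nat.ble (8 * k) (a + 2) && Nat.ble (Nat.pow a (a / (2 * k) - 1)) H)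
      · simp
      · simp only [cond_true]
        apply Nat.le_mul_of_pos_left
        have := hL a List.mem_cons_self
        cases Nat.ble (a * a) Q
        · exact this
        · exact hQ

theorem card_le_pc (k : ℕ) : ∀ (L : List ℕ) (B : Finset ℕ), (∀ p ∈ B, p ∈ L) →
    (∀ p ∈ B, p + 2 < 8 * k) → B.card ≤ pc k L := by
  intro L
  induction L with
  | nil =>
    intro B hB _
    have : B = ∅ := Finset.eq_empty_of_forall_notMem (fun p hp => by simpa using hB p hp)
    subst this
    simp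
  | cons a l ih =>
    intro B hB hf
    by_cases ha : a ∈ B
    · have h1 := hf a ha
      have e1 : Nat.ble (8 * k) (a + 2) = false := by
        rw [← Bool.not_eq_true]
        intro h
        have := Nat.le_of_ble_eq_true h
        omega
      have := ih (B.erase a) (fun p hp => by
        have := hB p (Finset.mem_of_mem_erase hp)
        rcases List.mem_cons.mp this with h | h
        · exact absurd h (Finset.ne_of_mem_erase hp)
        · exact h) (fun p hp => hf p (Finset.mem_of_mem_erase hp))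
      have h2 := Finset.card_erase_add_one ha
      simp only [pc, e1, cond_false]
      omega
    · have := ih B (fun p hp => by
        rcases List.mem_cons.mp (hB p hp) with h | h
        · exact absurd (h ▸ hp) ha
        · exact h) hf
      refine le_trans this ?_
      simp only [pc]
      cases Nat.ble (8 * k) (a + 2)
      · simp
      · simp

/-- the check of one box `lo ≤ N < 2 ^ e` -/
def boxOK (k A0 lo e : ℕ) : Bool :=
  Nat.ble (8 * k) lo && Nat.ble (2 * Nat.pow 2 e + 1) (Nat.pow (8 * k - 2) (A0 + 1)) &&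
  Nat.ble (2 * Nat.pow 2 e + 1) (Nat.pow 6000 (6000 / (2 * k) - 1)) && Nat.ble (pc k PL) (4 * k) &&
  Nat.ble (Nat.factorial (4 * k) * dprod k (2 * Nat.pow 2 e) (4 * k * (1 + A0)) PL *
    Nat.pow (lo + 2 * k) (pc k PL) + 1) (Nat.pow (lo + 1 - 2 * k) (4 * k))

theorem PL_pos : ∀ p ∈ PL, 1 ≤ p := by decide +kernel

theorem ratio {a b a0 b0 s t : ℕ} (h : a * b0 ≤ a0 * b) (hb : b0 ≤ b) (hst : s ≤ t) :
    a ^ s * b0 ^ t ≤ a0 ^ s * b ^ t := by
  obtain ⟨r, rfl⟩ := Nat.exists_eq_add_of_le hst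
  calc a ^ s * b0 ^ (s + r) = (a * b0) ^ s * b0 ^ r := by rw [pow_add, mul_pow]; ring
    _ ≤ (a0 * b) ^ s * b ^ r := Nat.mul_le_mul (Nat.pow_le_pow_left h s) (Nat.pow_le_pow_left hb r)
    _ = a0 ^ s * b ^ (s + r) := by rw [pow_add, mul_pow]; ring

theorem box_lemma (k A0 lo e : ℕ) (hk : 1 ≤ k) (hk30 : k < 30) (h : boxOK k A0 lo e = true) (N : ℕ)
    (h1 : lo ≤ N) (h2 : N < 2 ^ e) : Win N k := by
  simp only [boxOK, Bool.and_eq_true] at h
  obtain ⟨⟨⟨⟨c1, c2⟩, c3⟩, c4⟩, c5⟩ := h
  have c1 := Nat.le_of_ble_eq_true c1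
  have c2 := Nat.le_of_ble_eq_true c2
  have c3 := Nat.le_of_ble_eq_true c3
  have c4 := Nat.le_of_ble_eq_true c4
  have c5 := Nat.le_of_ble_eq_true c5
  simp only [Nat.pow_eq] at c2 c3 c5
  set H := 2 * 2 ^ e with hH
  set Q := 4 * k * (1 + A0) with hQ
  have hQ1 : 1 ≤ Q := Nat.one_le_iff_ne_zero.mpr (by positivity)
  have hN0 : 2 * N ≠ 0 := by omega
  have hNH : 2 * N < H := by omega
  -- the bad primes
  have hbad : ∀ p ∈ badSet N k, p ∈ PL ∧ 8 * k ≤ p + 2 ∧ p ^ (p / (2 * k) - 1) ≤ H ∧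
      fac N k p ≤ (bif Nat.ble (p * p) Q then Q else p) := by
    intro p hp
    unfold badSet at hp
    obtain ⟨hp1, hp2, hp3⟩ := (Finset.mem_filter.mp hp).2
    have h3 : p / (2 * k) < 2 + Nat.log p (2 * N) := by
      rw [Nat.div_lt_iff_lt_mul (by omega)]
      rw [mul_comm]
      exact hp3
    have h4 : p ^ (p / (2 * k) - 1) ≤ H := by
      calc p ^ (p / (2 * k) - 1) ≤ p ^ Nat.log p (2 * N) :=
            Nat.pow_le_pow_right hp1.pos (by omega)
        _ ≤ 2 * N := Nat.pow_log_le_self p hN0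
        _ ≤ H := hNH.le
    have h5 : p < 6000 := by
      by_contra hcon
      push Not at hcon
      have : 6000 ^ (6000 / (2 * k) - 1) ≤ p ^ (p / (2 * k) - 1) := by
        calc 6000 ^ (6000 / (2 * k) - 1) ≤ p ^ (6000 / (2 * k) - 1) :=
              Nat.pow_le_pow_left hcon _
          _ ≤ p ^ (p / (2 * k) - 1) :=
              Nat.pow_le_pow_right hp1.pos (Nat.sub_le_sub_right (Nat.div_le_div_right hcon) 1)
      omega
    refine ⟨mem_PL hp1 h5, hp2, h4, ?_⟩
    have h6 : Nat.log p (2 * N) ≤ A0 := by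
      have : Nat.log p (2 * N) < A0 + 1 := by
        apply Nat.log_lt_of_lt_pow hN0
        calc 2 * N < H := hNH
          _ ≤ (8 * k - 2) ^ (A0 + 1) := by omega
          _ ≤ p ^ (A0 + 1) := Nat.pow_le_pow_left (by omega) _
      omega
    have h7 : 4 * k * (1 + Nat.log p (2 * N)) ≤ Q := Nat.mul_le_mul_left _ (by omega)
    unfold fac
    split_ifs with h8
    · have : Nat.ble (p * p) Q = true := by
        apply Nat.ble_eq_true_of_le
        rw [← sq]
        exact le_trans h8 h7
      rw [this]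
      simpa using h7
    · cases h9 : Nat.ble (p * p) Q
      · simp
      · simp only [cond_true]
        have := Nat.le_of_ble_eq_true h9
        have hp0 := hp1.pos
        exact le_trans (Nat.le_mul_of_pos_left p hp0) this
  have hD : ∏ p ∈ badSet N k, fac N k p ≤ dprod k H Q PL :=
    prod_le_dprod k H Q hQ1 _ PL _ PL_pos (fun p hp => (hbad p hp).1) (fun p hp => (hbad p hp).2)
  have hcard : (Nat.primesBelow (8 * k - 2)).card ≤ pc k PL := by
    apply card_le_pc
    · intro p hp
      rw [Nat.mem_primesBelow] at hp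
      exact mem_PL hp.2 (by omega)
    · intro p hp
      rw [Nat.mem_primesBelow] at hp
      omega
  unfold Win
  set D := ∏ p ∈ badSet N k, fac N k p with hDdef
  set a := N + 2 * k with ha
  set b := N + 1 - 2 * k with hb
  set a0 := lo + 2 * k with ha0
  set b0 := lo + 1 - 2 * k with hb0
  have hb0' : 1 ≤ b0 := by omega
  have hab : a * b0 ≤ a0 * b := by
    obtain ⟨t, rfl⟩ := Nat.exists_eq_add_of_le h1
    have e1 : b = b0 + t := by omega
    have e2 : a = a0 + t := by omega
    rw [e1, e2]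
    have : b0 ≤ a0 := by omega
    nlinarith
  have hchoose : b ^ (4 * k) ≤ (4 * k).factorial * a.choose (4 * k) := by
    rw [← Nat.descFactorial_eq_factorial_mul_choose]
    have := Nat.pow_sub_le_descFactorial a (4 * k)
    have e3 : a + 1 - 4 * k = b := by omega
    rwa [e3] at this
  have hr := ratio hab (show b0 ≤ b by omega) c4
  have hfin : b0 ^ (4 * k) * ((4 * k).factorial * (a ^ (Nat.primesBelow (8 * k - 2)).card * D)) <
      b0 ^ (4 * k) * ((4 * k).factorial * a.choose (4 * k)) := by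
    calc b0 ^ (4 * k) * ((4 * k).factorial * (a ^ (Nat.primesBelow (8 * k - 2)).card * D))
        ≤ b0 ^ (4 * k) * ((4 * k).factorial * (a ^ pc k PL * dprod k H Q PL)) := by
          apply Nat.mul_le_mul_left
          apply Nat.mul_le_mul_left
          exact Nat.mul_le_mul (Nat.pow_le_pow_right (by omega) hcard) hD
      _ = (a ^ pc k PL * b0 ^ (4 * k)) * ((4 * k).factorial * dprod k H Q PL) := by ring
      _ ≤ (a0 ^ pc k PL * b ^ (4 * k)) * ((4 * k).factorial * dprod k H Q PL) :=
          Nat.mul_le_mul_right _ hr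
      _ = ((4 * k).factorial * dprod k H Q PL * a0 ^ pc k PL) * b ^ (4 * k) := by ring
      _ < b0 ^ (4 * k) * b ^ (4 * k) := by
          apply Nat.mul_lt_mul_of_pos_right
          · omega
          · exact Nat.pow_pos (by omega)
      _ ≤ b0 ^ (4 * k) * ((4 * k).factorial * a.choose (4 * k)) := Nat.mul_le_mul_left _ hchoose
  exact Nat.lt_of_mul_lt_mul_left (Nat.lt_of_mul_lt_mul_left hfin)

/-- the check of a chain of boxes -/
def chainOK (k : ℕ) : ℕ → List (ℕ × ℕ) → Bool
  | lo, [] => Nat.ble (T k) (2 * lo)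
  | lo, (e, A0) :: l => boxOK k A0 lo e && chainOK k (Nat.pow 2 e) l

theorem chain_lemma (k : ℕ) (hk : 1 ≤ k) (hk30 : k < 30) : ∀ (l : List (ℕ × ℕ)) (lo : ℕ),
    chainOK k lo l = true → ∀ N, lo ≤ N → 2 * N < T k → Win N k := by
  intro l
  induction l with
  | nil =>
    intro lo h N h1 h2
    have := Nat.le_of_ble_eq_true h
    omega
  | cons x l ih =>
    obtain ⟨e, A0⟩ := x
    intro lo h N h1 h2
    simp only [chainOK, Bool.and_eq_true] at h
    rcases lt_or_ge N (2 ^ e) with h3 | h3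
    · exact box_lemma k A0 lo e hk hk30 h.1 N h1 h3
    · exact ih (Nat.pow 2 e) h.2 N h3 h2

/-- the boxes -/
def data : ℕ → List (ℕ × ℕ)
  | 1 => [(26, 10), (36, 14), (61, 23), (101, 39), (181, 70), (331, 128), (831, 321), (2031, 786), (3231, 1250), (4431, 1714), (5631, 2178), (6831, 2642), (8031, 3107)]
  | 2 => [(26, 7), (46, 12), (96, 25), (196, 51), (496, 130), (1296, 340), (2496, 655), (3696, 971), (4896, 1286), (6096, 1601), (7296, 1916), (8496, 2231)]
  | 3 => [(29, 6), (79, 17), (279, 62), (1079, 242)]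
  | 4 => [(34, 7), (114, 23), (414, 84), (1614, 329)]
  | 5 => [(34, 6), (134, 25), (634, 121)]
  | 6 => [(44, 8), (194, 35), (994, 180)]
  | 7 => [(39, 6), (139, 24), (639, 111)]
  | 8 => [(44, 7), (194, 32), (994, 167)]
  | 9 => [(44, 7), (194, 31), (1394, 227)]
  | 10 => [(44, 7), (244, 38), (1444, 229)]
  | 11 => [(44, 7), (244, 38), (1444, 224)]
  | 12 => [(44, 6), (244, 37), (1444, 220)]
  | 13 => [(44, 6), (244, 36), (1444, 216)]
  | 14 => [(44, 6), (244, 36), (1444, 213)]
  | 15 => [(54, 7), (254, 37), (1454, 211)]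
  | 16 => [(54, 7), (354, 50), (1554, 222)]
  | 17 => [(54, 7), (354, 50), (1554, 220)]
  | 18 => [(54, 7), (354, 49), (1554, 217)]
  | 19 => [(54, 7), (354, 49), (1554, 215)]
  | 20 => [(54, 7), (354, 48), (1554, 212)]
  | 21 => [(54, 7), (354, 48), (1554, 210)]
  | 22 => [(54, 7), (354, 47), (1554, 208)]
  | 23 => [(54, 7), (354, 47), (1554, 207)]
  | 24 => [(54, 7), (354, 46), (1154, 152)]
  | 25 => [(54, 7), (354, 46), (1154, 151)]
  | 26 => [(54, 7), (354, 46), (1154, 150)]
  | 27 => [(54, 7), (354, 45), (1154, 149)]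
  | 28 => [(54, 7), (354, 45), (1154, 148)]
  | 29 => [(44, 5), (244, 31), (1044, 133)]
  | _ => []

theorem data_ok : ∀ k < 29, chainOK (k + 1) 25000 (data (k + 1)) = true := by decide +kernel

theorem box : BoxStatement := by
  intro N k hk hk30 hN hT
  obtain ⟨j, rfl⟩ := Nat.exists_eq_add_of_le' hk
  exact chain_lemma (j + 1) hk hk30 _ 25000 (data_ok j (by omega)) N hN hT

end Pool.Agent.Lib.MP_ff3579_an.X.H98
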